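import Pool.Agent.Work.MP_b29d7f_nt.Final

/-!
# Polynomial value sets of degree at least three have no simultaneous `p`-ordering

`IsPOrdering S p a`: all terms of `a` lie in `S` and each `a k` minimises over `S` the `p`-adic
valuation of `∏_{i<k} (s - a i)`.  `HasSimultaneousOrdering S`: one sequence is a `p`-ordering of
`S` for every prime `p`.

`Ample T`: there is a constant `C` such that for every prime `p` the set `T` is `p`-adically dense
in all but at most `C` residue classes modulo `p`, and in some ball of `ℤ_p`.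
-/

open Polynomial Pool.Agent.Work.MP_b29d7f_nt

namespace Pool.Agent.Results.MP_b29d7f_nt.PolynomialValues

/-- Let `f ∈ ℚ[X]` have degree at least `3`, let `T` be an ample set of integers with
`f(T) ⊆ S ⊆ f(ℤ) ∩ ℤ`.  Then `S` has no simultaneous `p`-ordering.  Every set of integers
containing an arithmetic progression, or all primes, is ample. -/
theorem result :
    (∀ (f : ℚ[X]) (T S : Set ℤ), 3 ≤ f.natDegree → Ample T →
      (∀ t ∈ T, ∃ s ∈ S, (s : ℚ) = f.eval (t : ℚ)) →
      (∀ s ∈ S, ∃ n : ℤ, (s : ℚ) = f.eval (n : ℚ)) →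
      ¬ HasSimultaneousOrdering S) ∧
    (∀ (T : Set ℤ) (a b : ℤ), a ≠ 0 → (∀ m : ℕ, a * m + b ∈ T) → Ample T) ∧
    (∀ T : Set ℤ, (∀ q : ℕ, q.Prime → (q : ℤ) ∈ T) → Ample T) := by
  refine ⟨fun f T S hd hT hTS hSf => main_rat f hd hT hTS hSf, fun T a b ha h => ?_, fun T h => ?_⟩
  · refine (ample_ap a b ha).mono ?_
    rintro _ ⟨m, rfl⟩
    exact h m
  · refine ample_primes.mono ?_
    rintro _ ⟨q, hq, rfl⟩
    exact h q hq

end Pool.Agent.Results.MP_b29d7f_nt.PolynomialValues
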