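import Pool.Agent.Work.MP_b29d7f_nt.Criteria

/-!
# Thick sets of integers with a simultaneous `p`-ordering

`IsPOrdering S p a`: all terms of `a` lie in `S` and each `a k` minimises over `S` the `p`-adic
valuation of `∏_{i<k} (s - a i)`.  `HasSimultaneousOrdering S`: one sequence is a `p`-ordering of
`S` for every prime `p`.

`mu S p` is the Haar measure of the closure of `S` in `ℤ_p` (the infimum over `J` of the proportion
of the residue classes modulo `p ^ J` which meet `S`).  `LinGrowth S p`: for some `B`, for any `k`
integers `b_i` there is `s ∈ S` with `v_p (∏ (s - b_i)) ≤ B k`.  `Thick S`: `LinGrowth S p` for all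
primes `p`, `mu S p > 0` for all large primes `p` and `∑_p (1 / mu S p - 1) (log p) / p < ∞`.

`PosUpperBanachDensity S`: for some `δ > 0` there are arbitrarily long intervals of length `L`
containing at least `δ L` elements of `S`.

`Ample S`: there is a constant `C` such that for every prime `p` the set `S` is `p`-adically dense
in all but at most `C` residue classes modulo `p`, and in some ball of `ℤ_p`.
-/

open Pool.Agent.Work.MP_b29d7f_nt

namespace Pool.Agent.Work.MP_b29d7f_nt.Old.ThickSets

/-- A thick set of integers `S` admits a simultaneous `p`-ordering if and only if it lies between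
a one-sided arithmetic progression `a ℕ + b` and the full progression `a ℤ + b`.  Every set of
positive upper Banach density is thick, every ample set is thick, and every set containing all
primes is thick. -/
theorem result :
    (∀ S : Set ℤ, Thick S →
      (HasSimultaneousOrdering S ↔
        ∃ a b : ℤ, a ≠ 0 ∧ (∀ n : ℕ, a * n + b ∈ S) ∧ ∀ s ∈ S, a ∣ s - b)) ∧
    (∀ S : Set ℤ, PosUpperBanachDensity S → Thick S) ∧
    (∀ S : Set ℤ, Ample S → Thick S) ∧
    (∀ S : Set ℤ, (∀ q : ℕ, q.Prime → (q : ℤ) ∈ S) → Thick S) := by
  refine ⟨fun S hS => thick_iff hS, fun S hS => thick_of_banach hS,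
    fun S hS => thick_of_ample hS, fun S h => thick_of_ample (ample_primes.mono ?_)⟩
  rintro _ ⟨q, hq, rfl⟩
  exact h q hq

end Pool.Agent.Work.MP_b29d7f_nt.Old.ThickSets
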